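import Pool.Agent.H70.Mono.Defs3

/-!
# MONO, module G1: terms of degree at least two get the coefficient one, no constant term
-/

set_option autoImplicit false

namespace Pool.Agent.H70.Mono

open MvPolynomial

section G1

variable {k : Type} [Field k] {σ : Type}

open Classical in
/-- the contribution of a term -/
noncomputable def wc (κ : σ → Fin 3) (m : σ →₀ ℕ) (c : k) : ℕ :=
  if Bad κ m c then 3 ^ cpl κ m else 0

theorem wt1_eq (κ : σ → Fin 3) (f : MvPolynomial σ k) :
    wt1 κ f = ∑ m ∈ f.support, wc κ m (coeff m f) := by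
  classical
  unfold wt1 wc
  rw [Finset.sum_filter]

theorem wc_le (κ : σ → Fin 3) (m : σ →₀ ℕ) (c : k) : wc κ m c ≤ 3 ^ cpl κ m := by
  unfold wc
  split_ifs
  · exact le_rfl
  · exact Nat.zero_le _

theorem degree_eq_of_cnt {τ : Type} (κ : σ → Fin 3) (κ' : τ → Fin 3) (m : σ →₀ ℕ) (m' : τ →₀ ℕ)
    (h : ∀ t, cnt κ m t = cnt κ' m' t) : m.degree = m'.degree := by
  rw [← cnt_le_degree κ m, ← cnt_le_degree κ' m']
  exact Finset.sum_congr rfl (fun c _ => h c)

theorem eq_zero_iff_degree (m : σ →₀ ℕ) : m = 0 ↔ m.degree = 0 :=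
  (Finsupp.degree_eq_zero_iff m).symm

theorem bad_iff (κ : σ → Fin 3) (m : σ →₀ ℕ) (c : k) :
    Bad κ m c ↔ (∃ t, 2 ≤ cnt κ m t) ∨ m.degree = 0 ∨ (2 ≤ m.degree ∧ c ≠ 1) := by
  unfold Bad
  rw [eq_zero_iff_degree]

theorem wc_congr {τ : Type} (κ : σ → Fin 3) (κ' : τ → Fin 3) (m : σ →₀ ℕ) (m' : τ →₀ ℕ) (c : k)
    (h : ∀ t, cnt κ m t = cnt κ' m' t) : wc κ m c = wc κ' m' c := by
  have h1 := degree_eq_of_cnt κ κ' m m' h
  have h2 : Bad κ m c ↔ Bad κ' m' c := by
    rw [bad_iff, bad_iff, h1]
    simp only [h]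
  have h3 : cpl κ m = cpl κ' m' := by
    unfold cpl
    rw [h1]
    simp only [h]
  unfold wc
  by_cases hb : Bad κ m c
  · rw [if_pos hb, if_pos (h2.1 hb), h3]
  · rw [if_neg hb, if_neg (fun hc => hb (h2.2 hc))]

theorem wc_zero_of (κ : σ → Fin 3) (m : σ →₀ ℕ) (c : k) (h : ∀ t, cnt κ m t ≤ 1)
    (h0 : m.degree ≠ 0) (h1 : 2 ≤ m.degree → c = 1) : wc κ m c = 0 := by
  unfold wc
  rw [if_neg]
  rw [bad_iff]
  rintro (⟨t, ht⟩ | h2 | ⟨h3, h4⟩)
  · have := h t
    omega
  · exact h0 h2
  · exact h4 (h1 h3)

theorem inr_mapDomain (m : σ →₀ ℕ) (t : Bool) :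
    (m.mapDomain (Sum.inl : σ → σ ⊕ Bool)) (Sum.inr t) = 0 :=
  Finsupp.mapDomain_of_notMem_range _ _ (by simp)

theorem wt1_core {κ : σ → Fin 3} {f : MvPolynomial σ k} {m : σ →₀ ℕ} (hm : m ∈ f.support)
    (hbad : Bad κ m (coeff m f))
    (a b : σ →₀ ℕ) (hab : m = a + b) (cu cv : Fin 3) (huv : cu ≠ cv)
    (h : wc (kap κ cu cv) (Finsupp.single (Sum.inr true) 1 + b.mapDomain Sum.inl) (1 : k) +
      wc (kap κ cu cv) (Finsupp.single (Sum.inr false) 1 + a.mapDomain Sum.inl) (-(coeff m f)) <
        3 ^ cpl κ m) :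
    ∃ (e : MvPolynomial (σ ⊕ Bool) k ≃ₐ[k] MvPolynomial (σ ⊕ Bool) k) (κ' : σ ⊕ Bool → Fin 3),
      wt1 κ' (e (stab k f)) < wt1 κ f := by
  classical
  set c := coeff m f with hc
  set f0 := f - monomial m c with hf0
  have hcoef : ∀ l, l ≠ m → coeff l f0 = coeff l f := by
    intro l hl
    rw [hf0, coeff_sub, coeff_monomial, if_neg (fun h => hl h.symm), sub_zero]
  have hsupp : f0.support ⊆ f.support.erase m := by
    intro l hl
    rw [mem_support_iff] at hl
    rw [Finset.mem_erase, mem_support_iff]
    have h1 : coeff l f0 = coeff l f - if m = l then c else 0 := by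
      rw [hf0, coeff_sub, coeff_monomial]
    rw [h1] at hl
    by_cases hlm : m = l
    · subst hlm
      simp [hc] at hl
    · rw [if_neg hlm, sub_zero] at hl
      exact ⟨fun h => hlm h.symm, hl⟩
  refine ⟨shear (-(monomial a c)) (monomial b 1), kap κ cu cv, ?_⟩
  have hmon : (monomial m c : MvPolynomial σ k) = monomial a c * monomial b 1 := by
    rw [monomial_mul, hab, mul_one]
  set F := shear (-(monomial a c)) (monomial b 1) (stab k f) with hFdef
  set luv : (σ ⊕ Bool) →₀ ℕ := Finsupp.single (Sum.inr true) 1 +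
        Finsupp.single (Sum.inr false) 1 with hluv
  set lu : (σ ⊕ Bool) →₀ ℕ := Finsupp.single (Sum.inr true) 1 + b.mapDomain Sum.inl with hlu
  set lv : (σ ⊕ Bool) →₀ ℕ := Finsupp.single (Sum.inr false) 1 + a.mapDomain Sum.inl with hlv
  have hF : F = rename Sum.inl f0 + (monomial luv 1 + (monomial lu 1 + monomial lv (-c))) := by
    rw [hFdef, shear_stab]
    have h1 : f = f0 + monomial a c * monomial b 1 := by
      rw [← hmon, hf0]
      ring
    conv_lhs => rw [h1]
    have h2 : (monomial luv 1 : MvPolynomial (σ ⊕ Bool) k) =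
        X (Sum.inr true) * X (Sum.inr false) := by
      rw [hluv, X, X, monomial_mul, one_mul]
    have h3 : (monomial lu 1 : MvPolynomial (σ ⊕ Bool) k) =
        X (Sum.inr true) * rename Sum.inl (monomial b 1) := by
      rw [hlu, X, rename_monomial, monomial_mul, one_mul]
    have h4 : (monomial lv (-c) : MvPolynomial (σ ⊕ Bool) k) =
        -(X (Sum.inr false) * rename Sum.inl (monomial a c)) := by
      rw [hlv, X, rename_monomial, monomial_mul, one_mul, map_neg]
    rw [h2, h3, h4, map_add, map_mul, map_neg]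
    ring
  -- the values of the exponents at `u`, `v`
  have vuv_t : luv (Sum.inr true) = 1 := by simp [hluv]
  have vuv_f : luv (Sum.inr false) = 1 := by simp [hluv]
  have vu_t : lu (Sum.inr true) = 1 := by simp [hlu, inr_mapDomain]
  have vu_f : lu (Sum.inr false) = 0 := by simp [hlu, inr_mapDomain]
  have vv_t : lv (Sum.inr true) = 0 := by simp [hlv, inr_mapDomain]
  have vv_f : lv (Sum.inr false) = 1 := by simp [hlv, inr_mapDomain]
  have ne1 : luv ≠ lu := fun h => by rw [h, vu_f] at vuv_f; exact absurd vuv_f (by norm_num)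
  have ne2 : luv ≠ lv := fun h => by rw [h, vv_t] at vuv_t; exact absurd vuv_t (by norm_num)
  have ne3 : lu ≠ lv := fun h => by rw [h, vv_t] at vu_t; exact absurd vu_t (by norm_num)
  have ren0 : ∀ l : (σ ⊕ Bool) →₀ ℕ, (l (Sum.inr true) ≠ 0 ∨ l (Sum.inr false) ≠ 0) →
      coeff l (rename Sum.inl f0 : MvPolynomial (σ ⊕ Bool) k) = 0 := by
    intro l hl
    apply coeff_rename_eq_zero
    intro u hu
    exfalso
    rcases hl with hl | hl
    · apply hl
      rw [← hu, inr_mapDomain]
    · apply hl
      rw [← hu, inr_mapDomain]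
  have c0 : ∀ l : σ →₀ ℕ, coeff (l.mapDomain Sum.inl) F = coeff l f0 := by
    intro l
    have e1 : luv ≠ l.mapDomain Sum.inl := fun h => by
      rw [h, inr_mapDomain] at vuv_t; exact absurd vuv_t (by norm_num)
    have e2 : lu ≠ l.mapDomain Sum.inl := fun h => by
      rw [h, inr_mapDomain] at vu_t; exact absurd vu_t (by norm_num)
    have e3 : lv ≠ l.mapDomain Sum.inl := fun h => by
      rw [h, inr_mapDomain] at vv_f; exact absurd vv_f (by norm_num)
    rw [hF, coeff_add, coeff_add, coeff_add, coeff_monomial, coeff_monomial, coeff_monomial,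
      if_neg e1, if_neg e2, if_neg e3, coeff_rename_mapDomain _ Sum.inl_injective]
    ring
  have cuv : coeff luv F = 1 := by
    rw [hF, coeff_add, coeff_add, coeff_add, coeff_monomial, coeff_monomial, coeff_monomial,
      if_pos rfl, if_neg ne1.symm, if_neg ne2.symm, ren0 luv (Or.inl (by rw [vuv_t]; norm_num))]
    ring
  have cu' : coeff lu F = 1 := by
    rw [hF, coeff_add, coeff_add, coeff_add, coeff_monomial, coeff_monomial, coeff_monomial,
      if_pos rfl, if_neg ne1, if_neg ne3.symm, ren0 lu (Or.inl (by rw [vu_t]; norm_num))]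
    ring
  have cv' : coeff lv F = -c := by
    rw [hF, coeff_add, coeff_add, coeff_add, coeff_monomial, coeff_monomial, coeff_monomial,
      if_pos rfl, if_neg ne2, if_neg ne3, ren0 lv (Or.inr (by rw [vv_f]; norm_num))]
    ring
  have hsub : F.support ⊆ f0.support.image (Finsupp.mapDomain Sum.inl) ∪
      ({luv} ∪ ({lu} ∪ {lv})) := by
    rw [hF]
    refine (support_add).trans (Finset.union_subset_union ?_ ((support_add).trans
      (Finset.union_subset_union support_monomial_subset ((support_add).trans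
        (Finset.union_subset_union support_monomial_subset support_monomial_subset)))))
    rw [support_rename_of_injective Sum.inl_injective]
  rw [wt1_eq, wt1_eq]
  have hw : ∀ (l : σ →₀ ℕ) (c : k), wc (kap κ cu cv) (l.mapDomain Sum.inl) c = wc κ l c := by
    intro l c
    apply wc_congr
    intro t
    rw [cnt_mapDomain]
    rfl
  have h0 : wc (kap κ cu cv) luv (1 : k) = 0 := by
    apply wc_zero_of
    · intro t
      rw [hluv, cnt_add, cnt_single, cnt_single]
      have e1 : kap κ cu cv (Sum.inr true) = cu := rfl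
      have e2 : kap κ cu cv (Sum.inr false) = cv := rfl
      rw [e1, e2]
      by_cases hcu : cu = t
      · rw [if_pos hcu, if_neg (fun h => huv (hcu.trans h.symm))]
      · rw [if_neg hcu]
        split_ifs <;> omega
    · rw [hluv]
      simp
    · intro _
      rfl
  have hle : ∑ l ∈ F.support, wc (kap κ cu cv) l (coeff l F) ≤
      ∑ l ∈ f0.support, wc κ l (coeff l f) +
        (0 + (wc (kap κ cu cv) lu (1 : k) + wc (kap κ cu cv) lv (-c))) := by
    refine (Finset.sum_le_sum_of_subset hsub).trans ?_
    refine (sum_union_le' _ _ _).trans (add_le_add ?_ ((sum_union_le' _ _ _).trans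
      (add_le_add ?_ ((sum_union_le' _ _ _).trans (add_le_add ?_ ?_)))))
    · rw [Finset.sum_image (fun x _ y _ hxy => Finsupp.mapDomain_injective Sum.inl_injective hxy)]
      refine Finset.sum_le_sum (fun l hl => ?_)
      have hlm := Finset.mem_erase.1 (hsupp hl)
      rw [c0, hw, hcoef l hlm.1]
    · rw [Finset.sum_singleton, cuv, h0]
    · rw [Finset.sum_singleton, cu']
    · rw [Finset.sum_singleton, cv']
  have hwm : wc κ m (coeff m f) = 3 ^ cpl κ m := by
    unfold wc
    rw [if_pos hbad]
  have hlt : ∑ l ∈ f0.support, wc κ l (coeff l f) + wc κ m (coeff m f) ≤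
      ∑ l ∈ f.support, wc κ l (coeff l f) := by
    rw [← Finset.sum_erase_add _ _ hm]
    exact Nat.add_le_add_right (Finset.sum_le_sum_of_subset hsupp) _
  rw [hwm] at hlt
  omega

theorem third_colour (c0 : Fin 3) : ∃ cv : Fin 3, cv ≠ c0 := by
  fin_cases c0
  · exact ⟨1, by decide⟩
  · exact ⟨0, by decide⟩
  · exact ⟨0, by decide⟩

theorem wt1_decr {κ : σ → Fin 3} {f : MvPolynomial σ k} (h : wt1 κ f ≠ 0) :
    ∃ (e : MvPolynomial (σ ⊕ Bool) k ≃ₐ[k] MvPolynomial (σ ⊕ Bool) k) (κ' : σ ⊕ Bool → Fin 3),
      wt1 κ' (e (stab k f)) < wt1 κ f := by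
  classical
  rw [wt1_eq] at h
  obtain ⟨m, hm, hmw⟩ := Finset.exists_ne_zero_of_sum_ne_zero h
  have hbad : Bad κ m (coeff m f) := by
    by_contra hc
    apply hmw
    unfold wc
    rw [if_neg hc]
  by_cases hm0 : m = 0
  · -- the constant term
    refine wt1_core hm hbad 0 0 (by simpa using hm0) 0 1 (by decide) ?_
    rw [wc_zero_of, wc_zero_of]
    · positivity
    · intro t
      rw [cnt_kap_f]
      have : cnt κ (0 : σ →₀ ℕ) t = 0 := by simp [cnt]
      rw [this]
      split_ifs <;> omega
    · rw [deg_f κ]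
      simp
    · intro h2
      rw [deg_f κ] at h2
      simp at h2
    · intro t
      rw [cnt_kap_t]
      have : cnt κ (0 : σ →₀ ℕ) t = 0 := by simp [cnt]
      rw [this]
      split_ifs <;> omega
    · rw [deg_t κ]
      simp
    · intro _
      rfl
  by_cases hb2 : ∃ t, 2 ≤ cnt κ m t
  · by_cases hd : 4 ≤ m.degree
    · obtain ⟨i, hi, hmi⟩ := exists_var m hm0
      set m1 := m - Finsupp.single i 1 with hm1
      have hd1 : m.degree = 1 + m1.degree := by
        conv_lhs => rw [hmi]
        simp
      have hm10 : m1 ≠ 0 := by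
        intro h0
        rw [h0] at hd1
        simp at hd1
        omega
      obtain ⟨j, hj, hmj⟩ := exists_var m1 hm10
      set b := m1 - Finsupp.single j 1 with hb
      have hd2 : m1.degree = 1 + b.degree := by
        conv_lhs => rw [hmj]
        simp
      have hab : m = (Finsupp.single i 1 + Finsupp.single j 1) + b := by
        rw [add_assoc, ← hmj, ← hmi]
      refine wt1_core hm hbad (Finsupp.single i 1 + Finsupp.single j 1) b hab 0 1 (by decide) ?_
      have hda : (Finsupp.single i 1 + Finsupp.single j 1 : σ →₀ ℕ).degree = 2 := by simp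
      refine lt_of_le_of_lt (add_le_add (wc_le _ _ _) (wc_le _ _ _)) (pow_lt ?_ ?_)
      · refine lt_of_le_of_lt (cpl_le _ _) (lt_of_lt_of_le ?_ (le_cpl κ m))
        rw [deg_t κ, hd1, hd2]
        nlinarith
      · refine lt_of_le_of_lt (cpl_le _ _) (lt_of_lt_of_le ?_ (le_cpl κ m))
        rw [deg_f κ, hda]
        calc (1 + 2) ^ 3 + (1 + 2) ^ 2 < 4 ^ 3 := by norm_num
          _ ≤ m.degree ^ 3 := Nat.pow_le_pow_left hd 3
    · obtain ⟨c0, hc0⟩ := hb2
      have hdeg : cnt κ m 0 + cnt κ m 1 + cnt κ m 2 ≤ 3 := by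
        have := cnt_le_degree κ m
        rw [Fin.sum_univ_three] at this
        omega
      obtain ⟨cu, cv, huv, hcu, hcv, hn⟩ := exists_colours (cnt κ m) hdeg c0 hc0
      obtain ⟨i, hi, hκi⟩ : ∃ i, 1 ≤ m i ∧ κ i = c0 := by
        by_contra hcon
        push Not at hcon
        have : cnt κ m c0 = 0 := by
          unfold cnt
          rw [Finsupp.sum]
          apply Finset.sum_eq_zero
          intro i hi
          rw [if_neg]
          exact hcon i (Nat.one_le_iff_ne_zero.2 (Finsupp.mem_support_iff.1 hi))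
        omega
      set b := m - Finsupp.single i 1 with hb
      have hab : m = Finsupp.single i 1 + b := by
        ext l
        rw [hb, Finsupp.add_apply, Finsupp.tsub_apply, Finsupp.single_apply]
        by_cases hl : i = l
        · subst hl
          rw [if_pos rfl]
          omega
        · rw [if_neg hl]
          omega
      have hcnt : ∀ l, cnt κ m l = (if c0 = l then 1 else 0) + cnt κ b l := by
        intro l
        conv_lhs => rw [hab]
        rw [cnt_add, cnt_single, hκi]
      obtain ⟨hs1, hs2⟩ := cpl_swap (cnt κ m) (cnt κ b) c0 cu hcu hcnt hc0 hn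
      refine wt1_core hm hbad (Finsupp.single i 1) b hab cu cv huv ?_
      refine lt_of_le_of_lt (add_le_add (wc_le _ _ _) (wc_le _ _ _)) (pow_lt ?_ ?_)
      · rw [cpl_eq, cpl_eq κ m]
        simp only [cnt_kap_t]
        rw [hs2]
        omega
      · rw [cpl_eq, cpl_eq κ m]
        simp only [cnt_kap_f, cnt_single, hκi]
        have hcv' : cv ≠ c0 := hcv
        have h2 : ∀ l, cnt κ m l = (if c0 = l then 1 else 0) + cnt κ b l := hcnt
        generalize cnt κ m = n at hc0 h2
        clear hs1 hs2 hcnt hn hcu huv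
        have g1 : 8 ≤ (n 0 + n 1 + n 2) ^ 3 := by
          have : 2 ≤ n 0 + n 1 + n 2 := by
            fin_cases c0
            · have : 2 ≤ n 0 := hc0
              omega
            · have : 2 ≤ n 1 := hc0
              omega
            · have : 2 ≤ n 2 := hc0
              omega
          calc 8 = 2 ^ 3 := by norm_num
            _ ≤ _ := Nat.pow_le_pow_left this 3
        have g2 : 4 ≤ n 0 ^ 2 + n 1 ^ 2 + n 2 ^ 2 := by
          fin_cases c0
          · have : 2 ≤ n 0 := hc0
            nlinarith [sq_nonneg (n 1), sq_nonneg (n 2)]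
          · have : 2 ≤ n 1 := hc0
            nlinarith [sq_nonneg (n 0), sq_nonneg (n 2)]
          · have : 2 ≤ n 2 := hc0
            nlinarith [sq_nonneg (n 0), sq_nonneg (n 1)]
        refine lt_of_lt_of_le (b := 12) ?_ (by omega)
        fin_cases c0 <;> fin_cases cv <;> simp at hcv' ⊢
  · have hcnt1 : ∀ t, cnt κ m t ≤ 1 := by
      intro t
      by_contra hcon
      exact hb2 ⟨t, by omega⟩
    have hd2 : 2 ≤ m.degree ∧ coeff m f ≠ 1 := by
      rcases hbad with h1 | h1 | h1
      · exact absurd h1 hb2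
      · exact absurd h1 hm0
      · exact h1
    have hds := cnt_le_degree κ m
    rw [Fin.sum_univ_three] at hds
    have q0 := hcnt1 0
    have q1 := hcnt1 1
    have q2 := hcnt1 2
    by_cases hd3 : m.degree = 3
    · obtain ⟨i, hi, hmi⟩ := exists_var m hm0
      set b := m - Finsupp.single i 1 with hb
      obtain ⟨cv, hcv⟩ := third_colour (κ i)
      have hcnt : ∀ l, cnt κ m l = (if κ i = l then 1 else 0) + cnt κ b l := by
        intro l
        conv_lhs => rw [hmi]
        rw [cnt_add, cnt_single]
      refine wt1_core hm hbad (Finsupp.single i 1) b hmi (κ i) cv hcv.symm ?_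
      rw [wc_zero_of, zero_add]
      · refine lt_of_le_of_lt (wc_le _ _ _) (Nat.pow_lt_pow_right (by norm_num) ?_)
        rw [cpl_eq, cpl_eq κ m]
        simp only [cnt_kap_f, cnt_single]
        have r0 : cnt κ m 0 = 1 := by omega
        have r1 : cnt κ m 1 = 1 := by omega
        have r2 : cnt κ m 2 = 1 := by omega
        rw [r0, r1, r2]
        generalize κ i = c0 at hcv
        fin_cases c0 <;> fin_cases cv <;> simp at hcv ⊢
      · intro t
        rw [cnt_kap_t, ← hcnt]
        exact hcnt1 t
      · rw [deg_t κ]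
        omega
      · intro _
        rfl
    · have hdeg2 : m.degree = 2 := by omega
      obtain ⟨cu, hcu⟩ : ∃ cu, cnt κ m cu = 0 := by
        by_contra hcon
        push Not at hcon
        have := hcon 0
        have := hcon 1
        have := hcon 2
        omega
      obtain ⟨cv, hcv⟩ := third_colour cu
      refine wt1_core hm hbad 0 m (by simp) cu cv hcv.symm ?_
      rw [wc_zero_of, wc_zero_of]
      · positivity
      · intro t
        rw [cnt_kap_f]
        have : cnt κ (0 : σ →₀ ℕ) t = 0 := by simp [cnt]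
        rw [this]
        split_ifs <;> omega
      · rw [deg_f κ]
        simp
      · intro h2
        rw [deg_f κ] at h2
        simp at h2
      · intro t
        rw [cnt_kap_t]
        by_cases ht : cu = t
        · rw [← ht, hcu]
          simp
        · rw [if_neg ht]
          have := hcnt1 t
          omega
      · rw [deg_t κ]
        omega
      · intro _
        rfl

/-! ### Hypergraphs -/

theorem tri_mono (κ : σ → Fin 3) (m : σ →₀ ℕ) (h : ∀ t, cnt κ m t ≤ 1) :
    (∀ i, m i ≤ 1) ∧ ∀ i j, i ≠ j → κ i = κ j → m i = 0 ∨ m j = 0 := by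
  classical
  have h1 : wt κ (monomial m (1 : ℚ)) = 0 := by
    rw [wt_eq]
    refine Finset.sum_eq_zero fun l hl => ?_
    have hl' : l = m := by
      have := support_monomial_subset hl
      simpa using this
    rw [hl']
    exact ww_zero_of κ m h
  refine triAffine_of_wt h1 m ?_
  rw [mem_support_iff, coeff_monomial, if_pos rfl]
  exact one_ne_zero

theorem monomial_eq_prod (m : σ →₀ ℕ) (h : ∀ i, m i ≤ 1) :
    (monomial m (1 : k) : MvPolynomial σ k) = ∏ i ∈ m.support, X i := by
  rw [monomial_eq, C_1, one_mul, Finsupp.prod]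
  refine Finset.prod_congr rfl fun i hi => ?_
  have : m i = 1 := by
    have h1 := h i
    have h2 := Finsupp.mem_support_iff.1 hi
    omega
  rw [this, pow_one]

theorem degree_eq_card (m : σ →₀ ℕ) (h : ∀ i, m i ≤ 1) : m.degree = m.support.card := by
  rw [Finsupp.degree, Finset.card_eq_sum_ones]
  refine Finset.sum_congr rfl fun i hi => ?_
  have h1 := h i
  have h2 := Finsupp.mem_support_iff.1 hi
  omega

theorem exists_hyp {κ : σ → Fin 3} {f : MvPolynomial σ k} (h : wt1 κ f = 0) :
    ∃ (E : Finset (Finset σ)) (ℓ : σ →₀ k), Tri κ E ∧ f = hyp E ℓ := by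
  classical
  rw [wt1_eq, Finset.sum_eq_zero_iff] at h
  have hnb : ∀ m ∈ f.support, (∀ t, cnt κ m t ≤ 1) ∧ m.degree ≠ 0 ∧
      (2 ≤ m.degree → coeff m f = 1) := by
    intro m hm
    have h1 : ¬ Bad κ m (coeff m f) := by
      intro hb
      have h2 := h m hm
      unfold wc at h2
      rw [if_pos hb] at h2
      exact absurd h2 (by positivity)
    rw [bad_iff] at h1
    push Not at h1
    refine ⟨fun t => ?_, h1.2.1, h1.2.2⟩
    have := h1.1 t
    omega
  have htri := fun m hm => tri_mono κ m (hnb m hm).1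
  set S2 := f.support.filter (fun m => 2 ≤ m.degree) with hS2
  have hinj : Set.InjOn Finsupp.support (S2 : Set (σ →₀ ℕ)) := by
    intro m hm m' hm' hmm
    rw [Finset.mem_coe, hS2, Finset.mem_filter] at hm hm'
    ext i
    have h1 := (htri m hm.1).1 i
    have h2 := (htri m' hm'.1).1 i
    by_cases hi : i ∈ m.support
    · have h3 := Finsupp.mem_support_iff.1 hi
      have h4 := Finsupp.mem_support_iff.1 (hmm ▸ hi)
      omega
    · rw [Finsupp.notMem_support_iff.1 hi, Finsupp.notMem_support_iff.1 (hmm ▸ hi)]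
  refine ⟨S2.image Finsupp.support, Finsupp.onFinset (f.support.biUnion Finsupp.support)
    (fun i => coeff (Finsupp.single i 1) f) ?_, ?_, ?_⟩
  · intro i hi
    rw [Finset.mem_biUnion]
    refine ⟨Finsupp.single i 1, mem_support_iff.2 hi, ?_⟩
    rw [Finsupp.mem_support_iff]
    simp
  · intro e he
    rw [Finset.mem_image] at he
    obtain ⟨m, hm, rfl⟩ := he
    rw [hS2, Finset.mem_filter] at hm
    refine ⟨?_, ?_⟩
    · rw [← degree_eq_card m (htri m hm.1).1]
      exact hm.2
    · intro i hi j hj hij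
      by_contra hne
      rcases (htri m hm.1).2 i j hne hij with h1 | h1
      · exact Finsupp.mem_support_iff.1 (Finset.mem_coe.1 hi) h1
      · exact Finsupp.mem_support_iff.1 (Finset.mem_coe.1 hj) h1
  · unfold hyp
    conv_lhs => rw [← support_sum_monomial_coeff f]
    rw [← Finset.sum_filter_add_sum_filter_not f.support (fun m => 2 ≤ m.degree)]
    congr 1
    · rw [Finset.sum_image hinj]
      refine Finset.sum_congr rfl fun m hm => ?_
      rw [Finset.mem_filter] at hm
      rw [(hnb m hm.1).2.2 hm.2, monomial_eq_prod m (htri m hm.1).1]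
    · rw [Finsupp.sum]
      symm
      refine Finset.sum_bij (fun i _ => Finsupp.single i 1) ?_ ?_ ?_ ?_
      · intro i hi
        rw [Finsupp.mem_support_iff, Finsupp.onFinset_apply] at hi
        rw [Finset.mem_filter, mem_support_iff]
        refine ⟨hi, ?_⟩
        simp
      · intro i _ j _ hij
        exact Finsupp.single_left_injective one_ne_zero hij
      · intro m hm
        rw [Finset.mem_filter] at hm
        obtain ⟨i, hi, hmi⟩ := exists_var m (by
          intro h0
          exact (hnb m hm.1).2.1 ((eq_zero_iff_degree m).1 h0))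
        have hm1 : m = Finsupp.single i 1 := by
          have hd : m.degree = 1 + (m - Finsupp.single i 1).degree := by
            conv_lhs => rw [hmi]
            simp
          have h0 : m - Finsupp.single i 1 = 0 := by
            rw [eq_zero_iff_degree]
            omega
          rw [h0, add_zero] at hmi
          exact hmi
        refine ⟨i, ?_, hm1.symm⟩
        rw [Finsupp.mem_support_iff, Finsupp.onFinset_apply, ← hm1]
        exact mem_support_iff.1 hm.1
      · intro i _
        rw [Finsupp.onFinset_apply, C_mul_X_eq_monomial]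

end G1

end Pool.Agent.H70.Mono
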